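import Mathlib

namespace Pool.Agent.Results.MP_dbf0a5_lc.Full

open Cardinal Set Ordinal

universe u

/-- The relation `(κ, η, θ) → ι` for set mappings. -/
def Arrow (κ η θ ι : Cardinal.{u}) : Prop :=
  ∀ (S : Type u) (f : S → Set S), #S = κ → (∀ x, x ∉ f x) → (∀ x, #(f x) < κ) →
    (∀ X : Set S, #X = η → #(⋂ x ∈ X, f x : Set S) < θ) →
    ∃ F : Set S, #F = ι ∧ ∀ x ∈ F, ∀ y ∈ F, x ≠ y → x ∉ f y

theorem core {l : Cardinal.{u}} (hl : ℵ₀ ≤ l) (hp : 2 ^ l = Order.succ l)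
    (L : Type u) (hL : #L = l) (r : L → ℕ) (hr : ∀ k, #{a | r a ≤ k} < l) :
    ∃ (S : Type u) (f : S → Set S), #S = Order.succ l ∧ (∀ x, x ∉ f x) ∧
      (∀ x, #(f x) < Order.succ l) ∧ (∀ x y, x ≠ y → #(f x ∩ f y : Set S) < l) ∧
      ∀ F : Set S, #F = Order.succ l → ∃ x ∈ F, ∃ y ∈ F, x ≠ y ∧ x ∈ f y := by
  classical
  let W := (Order.succ l).ord.ToType
  have hW : #W = Order.succ l := mk_ord_toType _
  have hI : ∀ a : W, #(Iio a) ≤ l := fun a => Order.lt_succ_iff.1 (mk_Iio_toType_ord_lt a)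
  have hinf : Infinite L := by rw [infinite_iff, hL]; exact hl
  -- branches
  have hbr : Order.succ l ≤ #(ℕ → L) := by
    rw [Order.succ_le_iff]
    have h1 : l ≤ sum (fun k : ULift.{u} ℕ => #{a | r a ≤ k.down}) := by
      rw [← hL, ← mk_univ]
      refine le_trans (mk_le_mk_of_subset (t := ⋃ k : ULift.{u} ℕ, {a | r a ≤ k.down}) ?_)
        mk_iUnion_le_sum_mk
      intro a _
      exact mem_iUnion.2 ⟨⟨r a⟩, le_refl (r a)⟩
    have h2 := sum_lt_prod (fun k : ULift.{u} ℕ => #{a | r a ≤ k.down}) (fun _ => l)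
      (fun k => hr k.down)
    refine (h1.trans_lt h2).trans_eq ?_
    simp [hL]
  obtain ⟨x⟩ : Nonempty (W ↪ (ℕ → L)) := by rw [← Cardinal.le_def, hW]; exact hbr
  have he : ∀ a : W, Nonempty (Iio a ↪ L) := fun a => by
    rw [← Cardinal.le_def, hL]; exact hI a
  let e : ∀ a : W, Iio a ↪ L := fun a => (he a).some
  have hg : #(List L → W) = #W := by
    rw [mk_arrow, Cardinal.lift_id, Cardinal.lift_id, mk_list_eq_mk, hL, hW, ← hp, ← power_mul, mul_eq_self hl]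
  obtain ⟨g⟩ : Nonempty (W ≃ (List L → W)) := by rw [← Cardinal.eq, hg]
  let P : ∀ a : W, Iio a → W → Prop := fun a ξ y =>
    y ∈ range (g ξ.1) ∧ y ≠ a ∧ ∀ i < r (e a ξ), x y i = x a i
  let c : ∀ a : W, Iio a → W := fun a ξ => if h : ∃ y, P a ξ y then h.choose else a
  have hc : ∀ a ξ, c a ξ ≠ a → P a ξ (c a ξ) := by
    intro a ξ h
    by_cases h' : ∃ y, P a ξ y
    · simp only [c, dif_pos h']; exact h'.choose_spec
    · simp only [c, dif_neg h'] at h; exact absurd rfl h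
  have hc' : ∀ a ξ, (∃ y, P a ξ y) → P a ξ (c a ξ) := by
    intro a ξ h'
    simp only [c, dif_pos h']; exact h'.choose_spec
  have hsm : ∀ a k, #(c a '' {ξ | r (e a ξ) ≤ k}) < l := by
    intro a k
    refine mk_image_le.trans_lt (lt_of_le_of_lt ?_ (hr k))
    exact mk_le_of_injective (f := fun ξ => ⟨e a ξ.1, ξ.2⟩)
      (fun ξ ζ h => Subtype.ext ((e a).injective (congrArg Subtype.val h)))
  refine ⟨W, fun a => range (c a) \ {a}, hW, fun a h => h.2 rfl, fun a => ?_, fun a b hab => ?_,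
    fun F hF => ?_⟩
  · exact Order.lt_succ_iff.2 ((mk_le_mk_of_subset diff_subset).trans (mk_range_le.trans (hI a)))
  · obtain ⟨k, hk⟩ : ∃ k, x a k ≠ x b k := by
      by_contra h
      push Not at h
      exact hab (x.injective (funext h))
    refine lt_of_le_of_lt (mk_le_mk_of_subset
      (t := c a '' {ξ | r (e a ξ) ≤ k} ∪ c b '' {ξ | r (e b ξ) ≤ k}) ?_)
      ((mk_union_le _ _).trans_lt (add_lt_of_lt hl (hsm a k) (hsm b k)))
    rintro y ⟨⟨⟨ξ, hξ⟩, h1⟩, ⟨ζ, hζ⟩, h2⟩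
    by_contra h
    simp only [mem_union, mem_image, mem_setOf_eq, not_or, not_exists, not_and] at h
    have h3 : k < r (e a ξ) := lt_of_not_ge fun h' => h.1 ξ h' hξ
    have h4 : k < r (e b ζ) := lt_of_not_ge fun h' => h.2 ζ h' hζ
    have h5 := (hc a ξ (hξ ▸ h1)).2.2 k h3
    have h6 := (hc b ζ (hζ ▸ h2)).2.2 k h4
    rw [hξ] at h5; rw [hζ] at h6
    exact hk (h5.symm.trans h6)
  · have hne : F.Nonempty := by
      rw [← nonempty_coe_sort, ← mk_ne_zero_iff, hF]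
      exact (Order.bot_lt_succ l).ne'
    have hp' : ∀ s : List L, ∃ y ∈ F, (∃ z ∈ F, List.ofFn (fun i : Fin s.length => x z i) = s) →
        List.ofFn (fun i : Fin s.length => x y i) = s := by
      intro s
      by_cases h : ∃ z ∈ F, List.ofFn (fun i : Fin s.length => x z i) = s
      · obtain ⟨z, hz, h⟩ := h; exact ⟨z, hz, fun _ => h⟩
      · exact ⟨hne.some, hne.some_mem, fun h' => absurd h' h⟩
    choose p hpF hp' using hp'
    obtain ⟨ξ, hξ⟩ := g.surjective p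
    obtain ⟨a, haF, ha⟩ : ∃ a ∈ F, a ∉ range p ∪ insert ξ (Iio ξ) := by
      by_contra h
      push Not at h
      have h1 : #F ≤ l := by
        refine (mk_le_mk_of_subset h).trans ((mk_union_le _ _).trans ?_)
        refine (add_le_add (mk_range_le.trans_eq ((mk_list_eq_mk L).trans hL))
          ((mk_insert_le).trans (add_le_add (hI ξ) (one_le_aleph0.trans hl)))).trans ?_
        rw [add_eq_self hl, add_eq_self hl]
      exact absurd (hF ▸ h1) (not_le.2 (Order.lt_succ l))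
    simp only [mem_union, mem_insert_iff, mem_Iio, not_or] at ha
    have hlt : ξ < a := lt_of_le_of_ne (not_lt.1 ha.2.2) (Ne.symm ha.2.1)
    have hP : P a ⟨ξ, hlt⟩ (c a ⟨ξ, hlt⟩) := by
      refine hc' _ _ ?_
      set n := r (e a ⟨ξ, hlt⟩)
      let s : List L := List.ofFn (fun i : Fin n => x a i)
      have hs : s.length = n := List.length_ofFn
      refine ⟨p s, ?_, fun h => ha.1 ⟨s, h⟩, fun i hi => ?_⟩
      · show p s ∈ range (g ξ)
        rw [hξ]; exact ⟨s, rfl⟩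
      · have h1 := hp' s ⟨a, haF, by
          apply List.ext_getElem <;> simp [s]⟩
        have h2 := congrArg (fun t => t[i]?) h1
        have hi' : i < n := hi
        simpa [s, hi'] using h2
    obtain ⟨⟨s, hs⟩, h2, -⟩ := id hP
    refine ⟨c a ⟨ξ, hlt⟩, ?_, a, haF, h2, ⟨_, rfl⟩, h2⟩
    rw [← hs]
    show g ξ s ∈ F
    rw [hξ]; exact hpF s

theorem result (h : (2 : Cardinal.{u}) ^ ℵ_ ω = ℵ_ (ω + 1)) (η : Cardinal.{u}) (hη : 2 ≤ η) :
    ¬ Arrow (ℵ_ (ω + 1)) η (ℵ_ ω) (ℵ_ (ω + 1)) := by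
  have hs : (ℵ_ (ω + 1) : Cardinal.{u}) = Order.succ (ℵ_ ω) := by
    rw [← Order.succ_eq_add_one, aleph_succ]
  rw [hs] at h ⊢
  have hr : ∀ a : (ℵ_ ω : Cardinal.{u}).ord.ToType, ∃ k : ℕ, #(Iio a) < ℵ_ k := by
    intro a
    have := (mk_Iio_toType_ord_lt a).trans_eq (aleph_limit isSuccLimit_omega0)
    rw [lt_ciSup_iff' Cardinal.bddAbove_of_small] at this
    obtain ⟨⟨i, hi⟩, h⟩ := this
    obtain ⟨k, rfl⟩ := lt_omega0.1 hi
    exact ⟨k, h⟩
  choose r hr using hr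
  obtain ⟨S, f, h1, h2, h3, h4, h5⟩ := core (aleph0_le_aleph ω) h _ (mk_ord_toType _) r (by
    intro k
    have hk : (ℵ_ k : Cardinal.{u}) < ℵ_ ω := aleph_lt_aleph.2 (natCast_lt_omega0 _)
    obtain ⟨b, hb⟩ : ∃ b : (ℵ_ ω : Cardinal.{u}).ord.ToType, #(Iio b) = ℵ_ k := by
      refine ⟨enum (α := (ℵ_ ω : Cardinal.{u}).ord.ToType) (· < ·)
        ⟨(ℵ_ k : Cardinal.{u}).ord, by rw [type_toType]; exact mem_Iio.2 (ord_lt_ord.2 hk)⟩, ?_⟩
      refine (card_typein (r := (· < ·)) _).symm.trans ?_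
      exact (congrArg Ordinal.card (typein_enum _ _)).trans (card_ord _)
    refine lt_of_le_of_lt (mk_le_mk_of_subset (t := Iio b) fun a ha => ?_) (hb.trans_lt hk)
    by_contra hc
    have h1 : #(Iio b) ≤ #(Iio a) := mk_le_mk_of_subset (Iio_subset_Iio (not_lt.1 hc))
    have h2 : (ℵ_ (r a) : Cardinal.{u}) ≤ ℵ_ k := aleph_le_aleph.2 (by exact_mod_cast ha)
    exact absurd ((hb ▸ h1).trans_lt ((hr a).trans_le h2)) (lt_irrefl _))
  intro H
  obtain ⟨F, hF, hF'⟩ := H S f h1 h2 h3 (by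
    intro X hX
    have : Nontrivial X := by
      rw [← one_lt_iff_nontrivial, hX]
      exact lt_of_lt_of_le one_lt_two hη
    obtain ⟨a, b, hab⟩ := exists_pair_ne X
    refine lt_of_le_of_lt (mk_le_mk_of_subset fun y hy => ?_)
      (h4 a b (fun h => hab (Subtype.ext h)))
    simp only [mem_iInter] at hy
    exact ⟨hy a a.2, hy b b.2⟩)
  obtain ⟨x, hx, y, hy, hxy, h⟩ := h5 F hF
  exact hF' x hx y hy hxy h

/-- GCH gives the hypothesis. -/
example (GCH : ∀ κ : Cardinal.{u}, ℵ₀ ≤ κ → 2 ^ κ = Order.succ κ) :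
    (2 : Cardinal.{u}) ^ ℵ_ ω = ℵ_ (ω + 1) := by
  rw [GCH _ (aleph0_le_aleph ω), succ_aleph]

end Pool.Agent.Results.MP_dbf0a5_lc.Full
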